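import Pool.Agent.Lib.CD.Main

/-!
`MA ≠ SBP ≠ AM` for verifiers of constant depth: the classes of languages which are defined like
`MA`, `SBP` and `AM` with verifiers given by circuits of constant depth and polynomial size and with
`N ^ o(1)` coins and message bits form a strictly increasing chain.
-/

namespace Pool.Agent.Results.MP_ff3ed7_lc.ConstantDepth

open Pool.Agent.CD

/-- (1) `MAac ⊊ SBPac ⊊ AMac`, and `AMac` is contained neither in `PPac` nor in `S2ac` (`Σ₂`):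
verifiers of constant depth and polynomial size, `N ^ o(1)` coins and message bits.
(2) There is a language with Arthur-Merlin verifiers of depth `3` and polynomial size, with
`log N + 2` coins and messages of `2 ^ O(√log N)` bits, while for all constants `d`, `c` and all
large `N` the following holds for the words of length `N` and for all families of circuits of depth
`d` and size at most `2 ^ (log N) ^ c` (any circuit for each message and each outcome of any number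
of coins): Merlin-Arthur protocols with messages of `p` bits have `N < (p + 2) ^ 11`, `SBP`
protocols with threshold `2 ^ (-p)` and `PP` protocols with gap `2 ^ (-p)` have `N < (p + 2) ^ 6`.
(3) There is a language with `SBP` verifiers of depth `3` and polynomial size and with
`2 ^ O(√log N)` coins, threshold `2 ^ (-2 ^ O(√log N))`, while Merlin-Arthur protocols as in (2)
have `N < (p + 2) ^ 20`.
(4) There is another language with Arthur-Merlin verifiers as in (2) while `Σ₂` protocols with `p`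
existential and `r` universal bits and with circuits as in (2) have `N < (p + r + 2) ^ 10`.
(5) Subexponential size, and depth up to `δ log N / log log N`: for every `m ≥ 10` there is a
language with Arthur-Merlin verifiers of depth `3` and polynomial size, with `log N + 2` coins and
messages of `O(N ^ (1 / m))` bits, while for all large `N` and for families of circuits of any
depth `d` and size at most `2 ^ w`, `w ≥ 1`, `(513 w) ^ (d + 1) ≤ 2 ^ ⌊log N / (12 m)⌋`, Merlin-Arthur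
protocols with messages of `p` bits have `N < (p + 2) ^ 12`, `SBP` and `PP` protocols
`N < (p + 2) ^ 6`. -/
theorem result :
    (MAac ⊂ SBPac ∧ SBPac ⊂ AMac ∧ ¬ AMac ⊆ PPac ∧ ¬ AMac ⊆ S2ac) ∧
    (∃ (L : Lng) (C : ℕ),
      (∀ N, ∃ r p S, r ≤ Nat.log 2 N + 2 ∧ p ≤ 2 ^ (C * (Nat.sqrt (Nat.log 2 N) + 1)) ∧
        S ≤ C * (N + 1) ^ C ∧ HasAMk (L N) r p 3 S) ∧
      ∀ d c : ℕ, ∃ N₀ : ℕ, ∀ N ≥ N₀, ∀ S : ℕ, S ≤ 2 ^ (Nat.log 2 N) ^ c → ∀ p : ℕ,
        (HasMAk (L N) p d S → N < (p + 2) ^ 11) ∧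
        (HasSBk (L N) p d S → N < (p + 2) ^ 6) ∧
        (HasPPk (L N) p d S → N < (p + 2) ^ 6)) ∧
    (∃ (L : Lng) (C : ℕ),
      (∀ N, ∃ r s S, r ≤ 2 ^ (C * (Nat.sqrt (Nat.log 2 N) + 1)) ∧
        s ≤ 2 ^ (C * (Nat.sqrt (Nat.log 2 N) + 1)) ∧
        S ≤ C * (N + 1) ^ C ∧ HasSBu (L N) r s 3 S) ∧
      ∀ d c : ℕ, ∃ N₀ : ℕ, ∀ N ≥ N₀, ∀ S : ℕ, S ≤ 2 ^ (Nat.log 2 N) ^ c → ∀ p : ℕ,
        HasMAk (L N) p d S → N < (p + 2) ^ 20) ∧
    (∃ (L : Lng) (C : ℕ),
      (∀ N, ∃ r p S, r ≤ Nat.log 2 N + 2 ∧ p ≤ 2 ^ (C * (Nat.sqrt (Nat.log 2 N) + 1)) ∧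
        S ≤ C * (N + 1) ^ C ∧ HasAMk (L N) r p 3 S) ∧
      ∀ d c : ℕ, ∃ N₀ : ℕ, ∀ N ≥ N₀, ∀ S : ℕ, S ≤ 2 ^ (Nat.log 2 N) ^ c → ∀ p r : ℕ,
        HasS2k (L N) p r d S → N < (p + r + 2) ^ 10) ∧
    ∀ m : ℕ, 10 ≤ m → ∃ (L : Lng) (C : ℕ),
      (∀ N, ∃ r p S, r ≤ Nat.log 2 N + 2 ∧ p ≤ C * 2 ^ (Nat.log 2 N / m) ∧
        S ≤ C * (N + 1) ^ C ∧ HasAMk (L N) r p 3 S) ∧
      ∃ N₀ : ℕ, ∀ N ≥ N₀, ∀ d w S : ℕ, 1 ≤ w → S ≤ 2 ^ w →
        (513 * w) ^ (d + 1) ≤ 2 ^ (Nat.log 2 N / (12 * m)) → ∀ p : ℕ,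
        (HasMAk (L N) p d S → N < (p + 2) ^ 12) ∧
        (HasSBk (L N) p d S → N < (p + 2) ^ 6) ∧
        (HasPPk (L N) p d S → N < (p + 2) ^ 6) :=
  ⟨aCha, aP1, aP2, aP3, aP5⟩

end Pool.Agent.Results.MP_ff3ed7_lc.ConstantDepth
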