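import Pool.Agent.Lib.MP_ff3ed7_lc.MH.Main

/-!
`MA ≠ SBP ≠ AM` for machines with any number of input heads and small memory in quasilinear time: the
classes of languages which are defined like `MA`, `SBP` and `AM` with such verifiers form a strictly
increasing chain.
-/

namespace Pool.Agent.Results.MP_ff3ed7_lc.MultiHead

open Pool.Agent.Lib.MP_ff3ed7_lc.PLT Pool.Agent.Lib.MP_ff3ed7_lc.MH

/-- (1) `MAmh ⊊ SBPmh ⊊ AMmh`, and `AMmh` is not contained in `PPmh`: classes of languages; the
verifiers are fixed programs with registers and any fixed number of heads on the read-only input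
(`MH/Def.lean`: moving a head from cell `j` to cell `j'` costs `|j - j'|`, an operation costs the length
of its result; registers are numbers of at most `(log n + 2) ^ e` bits) whose running time on the inputs
of length `n` is at most `(n + 1) (log n + 2) ^ d` and which use `(log n + 2) ^ c` coins and message
bits.
(2) There are a language `L` and a constant `C` such that `L` has an `SBP` verifier of this kind with two
heads, `2 (log n + 2)` coins, threshold `2 ^ (-(log n + 2))`, time `C (n + 1) (log n + 2) ^ 3` and
registers of `C (log n + 2) ^ 2` bits, while for every length `n` and every number `k` of heads every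
nonuniform Merlin-Arthur protocol for the words of `L` of length `n` with a message of `p` bits and
machines with `k` heads on the read-only input and `2 ^ s` memory states whose heads together cover a
distance of at most `t` satisfies `n ≤ C ((k + 1) (p + 1) (s + 1) (t / n + 1)) ^ 25600`.
(3) There are a language `L` and a constant `C` such that `L` has an Arthur-Merlin verifier of this kind
with two heads, `log n + 2` coins and message bits and the time and registers of (2), while the bound of
(2) holds for every Merlin-Arthur protocol, for every `SBP` protocol with threshold `2 ^ (-p)` and for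
every `PP` protocol with gap `2 ^ (-p)` with such machines. -/
theorem result :
    (MAmh ⊂ SBPmh ∧ SBPmh ⊂ AMmh ∧ ¬ AMmh ⊆ PPmh) ∧
    (∃ (L : Set (List Bool)) (C : ℕ),
      L ∈ SBPh 2 (fun n => 2 * (Nat.log 2 n + 2)) (fun n => C * (n + 1) * (Nat.log 2 n + 2) ^ 3)
        (fun n => C * (Nat.log 2 n + 2) ^ 2) (fun n => Nat.log 2 n + 2) ∧
      ∀ n k p s t, HasMAh k (slice L n) p s t →
        n ≤ C * ((k + 1) * (p + 1) * (s + 1) * (t / n + 1)) ^ 25600) ∧
    ∃ (L : Set (List Bool)) (C : ℕ),
      L ∈ AMh 2 (fun n => Nat.log 2 n + 2) (fun n => C * (n + 1) * (Nat.log 2 n + 2) ^ 3)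
        (fun n => C * (Nat.log 2 n + 2) ^ 2) ∧
      ∀ n k p s t, (HasMAh k (slice L n) p s t ∨ HasSBPh k (slice L n) p s t ∨
          HasPPh k (slice L n) p s t) →
        n ≤ C * ((k + 1) * (p + 1) * (s + 1) * (t / n + 1)) ^ 25600 :=
  mh_main

end Pool.Agent.Results.MP_ff3ed7_lc.MultiHead
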